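import Pool.Agent.Helper45.PL4.Main

/-!
# Polynomial solutions of the p-Laplace equation of degree at most four

For every number `n` of variables and every real `p > 1` with `p ≠ 2`, every real polynomial of
total degree at most four (homogeneous or not) which satisfies the expanded `p`-Laplace identity
`|∇u|² Δu + (p - 2) ∑ uᵢ uⱼ uᵢⱼ = 0` at every point of `ℝⁿ` has degree at most one. In particular
no nonzero homogeneous polynomial of degree 2, 3 or 4 is a solution, in any dimension.
-/

set_option autoImplicit false

namespace Pool.Agent.Results.MP_d74254_an.DegreeAtMostFour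

open MvPolynomial

/-- Every polynomial solution of the `p`-Laplace equation on `ℝⁿ`, `1 < p`, `p ≠ 2`, of degree at
most four has degree at most one. -/
theorem result :
    ∀ (n : ℕ) (p : ℝ), 1 < p → p ≠ 2 → ∀ u : MvPolynomial (Fin n) ℝ, u.totalDegree ≤ 4 →
      (∀ x : Fin n → ℝ,
          (∑ i, (MvPolynomial.eval x (MvPolynomial.pderiv i u)) ^ 2) *
              (∑ i, MvPolynomial.eval x (MvPolynomial.pderiv i (MvPolynomial.pderiv i u))) +
            (p - 2) * ∑ i, ∑ j,
              MvPolynomial.eval x (MvPolynomial.pderiv i u) *
                MvPolynomial.eval x (MvPolynomial.pderiv j u) *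
                MvPolynomial.eval x (MvPolynomial.pderiv i (MvPolynomial.pderiv j u)) = 0) →
      u.totalDegree ≤ 1 := by
  intro n p hp hp2 u hdeg h
  exact Pool.Agent.Helper45.PL4.main n p hp hp2 u hdeg h

end Pool.Agent.Results.MP_d74254_an.DegreeAtMostFour
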